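import Pool.Agent.W2helper43.LC.Cube

/-!
# Log-concavity of sections of rescaled `ℓ_p` balls

For a linear subspace `H` of `ℝ^n` (of any dimension) and `p > 0` let
`F_{p,H}(t) = vol (D_t B_p^n ∩ H)`, where `D_t = diag(e^{t_1},...,e^{t_n})`.

* `F_{p,H}` is log-concave for every `0 < p ≤ 2`, every `n` and every `H`;
* for a fixed `H`: log-concavity for an exponent `q` implies log-concavity for every `p ≤ q`;
* for a fixed `H`: log-concavity for all exponents `p > 1` is equivalent to log-concavity for the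
  cube.
-/

set_option autoImplicit false

open MeasureTheory Set

namespace Pool.Agent.Results.MP_fa837f_gt.AtMostTwoAndCube

/-- the unit ball of `ℓ_p^n` -/
def B (p : ℝ) (n : ℕ) : Set (EuclideanSpace ℝ (Fin n)) := {x | ∑ i, |x i| ^ p ≤ 1}

/-- the cube `[-1,1]^n` -/
def cube (n : ℕ) : Set (EuclideanSpace ℝ (Fin n)) := {x | ∀ i, |x i| ≤ 1}

/-- the diagonal matrix `D_t = diag(e^{t_1},...,e^{t_n})` -/
noncomputable def D {n : ℕ} (t : Fin n → ℝ) (x : EuclideanSpace ℝ (Fin n)) :
    EuclideanSpace ℝ (Fin n) := WithLp.toLp 2 fun i => Real.exp (t i) * x i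

/-- Lebesgue measure of a subset of a finite dimensional Euclidean space (with its Borel sets);
this is Mathlib's `volume` -/
noncomputable def vol {V : Type} [NormedAddCommGroup V] [InnerProductSpace ℝ V]
    [FiniteDimensional ℝ V] (A : Set V) : ℝ :=
  letI : MeasurableSpace V := borel V
  haveI : BorelSpace V := ⟨rfl⟩
  (volume A).toReal

/-- the section `D_t K ∩ H`, as a subset of `H` -/
def sect {n : ℕ} (K : Set (EuclideanSpace ℝ (Fin n)))
    (H : Submodule ℝ (EuclideanSpace ℝ (Fin n))) (t : Fin n → ℝ) : Set H :=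
  {x | (x : EuclideanSpace ℝ (Fin n)) ∈ D t '' K}

/-- the volume of `D_t K ∩ H`: Lebesgue measure of the Euclidean space `H` -/
noncomputable def F {n : ℕ} (K : Set (EuclideanSpace ℝ (Fin n)))
    (H : Submodule ℝ (EuclideanSpace ℝ (Fin n))) (t : Fin n → ℝ) : ℝ := vol (sect K H t)

/-- log-concavity of a function on `ℝ^n` -/
def LogConcave {n : ℕ} (f : (Fin n → ℝ) → ℝ) : Prop :=
  ∀ (s t : Fin n → ℝ) (l : ℝ), 0 ≤ l → l ≤ 1 →
    f s ^ l * f t ^ (1 - l) ≤ f fun i => l * s i + (1 - l) * t i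

open Pool.Agent.W2helper43

lemma vol_eq {V : Type} [NormedAddCommGroup V] [InnerProductSpace ℝ V]
    [FiniteDimensional ℝ V] [m : MeasurableSpace V] [b : BorelSpace V] (A : Set V) :
    vol A = (volume A).toReal := by
  have h := b.measurable_eq
  subst h
  rfl

lemma mem_image {n : ℕ} (K : Set (EuclideanSpace ℝ (Fin n))) (t : Fin n → ℝ)
    (x : EuclideanSpace ℝ (Fin n)) :
    x ∈ D t '' K ↔ D (fun i => -t i) x ∈ K := by
  have e1 : D (fun i => -t i) (D t x) = x := by
    ext i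
    simp only [D, PiLp.toLp_apply]
    rw [← mul_assoc, ← Real.exp_add, neg_add_cancel, Real.exp_zero, one_mul]
  have e2 : ∀ y, D t (D (fun i => -t i) y) = y := by
    intro y
    ext i
    simp only [D, PiLp.toLp_apply]
    rw [← mul_assoc, ← Real.exp_add, add_neg_cancel, Real.exp_zero, one_mul]
  have e1' : ∀ y, D (fun i => -t i) (D t y) = y := by
    intro y
    ext i
    simp only [D, PiLp.toLp_apply]
    rw [← mul_assoc, ← Real.exp_add, neg_add_cancel, Real.exp_zero, one_mul]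
  constructor
  · rintro ⟨y, hy, rfl⟩
    rwa [e1']
  · intro h
    exact ⟨_, h, e2 x⟩

lemma set_p {n : ℕ} (p : ℝ) (H : Submodule ℝ (EuclideanSpace ℝ (Fin n))) (t : Fin n → ℝ) :
    sect (B p n) H t = LC.sec p H t := by
  ext x
  rw [sect, mem_ofPred_eq, mem_image]
  change (∑ i, |D (fun i => -t i) (x : EuclideanSpace ℝ (Fin n)) i| ^ p ≤ 1) ↔
    ∑ i, (Real.exp (-t i) * |(x : EuclideanSpace ℝ (Fin n)) i|) ^ p ≤ 1
  simp only [D, PiLp.toLp_apply, abs_mul, Real.abs_exp]

lemma set_c {n : ℕ} (H : Submodule ℝ (EuclideanSpace ℝ (Fin n))) (t : Fin n → ℝ) :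
    sect (cube n) H t = LC.cub H t := by
  ext x
  rw [sect, mem_ofPred_eq, mem_image]
  change (∀ i, |D (fun i => -t i) (x : EuclideanSpace ℝ (Fin n)) i| ≤ 1) ↔
    ∀ i, |(x : EuclideanSpace ℝ (Fin n)) i| ≤ Real.exp (t i)
  refine forall_congr' fun i => ?_
  simp only [D, PiLp.toLp_apply, abs_mul, Real.abs_exp]
  rw [Real.exp_neg, inv_mul_le_iff₀ (Real.exp_pos _), mul_one]

lemma logC_p {n : ℕ} (p : ℝ) (H : Submodule ℝ (EuclideanSpace ℝ (Fin n))) :
    LogConcave (F (B p n) H) ↔ LC.LogC H p := by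
  have e : F (B p n) H = fun t => (volume (LC.sec p H t)).toReal := by
    funext t
    rw [F, set_p, vol_eq]
  rw [e]
  exact ⟨fun h s t l hl => h s t l hl.1 hl.2, fun h s t l h0 h1 => h s t l ⟨h0, h1⟩⟩

lemma logC_c {n : ℕ} (H : Submodule ℝ (EuclideanSpace ℝ (Fin n))) :
    LogConcave (F (cube n) H) ↔ LC.LogCC H := by
  have e : F (cube n) H = fun t => (volume (LC.cub H t)).toReal := by
    funext t
    rw [F, set_c, vol_eq]
  rw [e]
  exact ⟨fun h s t l hl => h s t l hl.1 hl.2, fun h s t l h0 h1 => h s t l ⟨h0, h1⟩⟩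

/-- `F_{p,H}` is log-concave on `ℝ^n` -/
def Ball {n : ℕ} (H : Submodule ℝ (EuclideanSpace ℝ (Fin n))) (p : ℝ) : Prop :=
  LogConcave (F (B p n) H)

/-- the function of the cube, `t ↦ vol (D_t [-1,1]^n ∩ H)`, is log-concave on `ℝ^n` -/
def Cube {n : ℕ} (H : Submodule ℝ (EuclideanSpace ℝ (Fin n))) : Prop :=
  LogConcave (F (cube n) H)

/-- **Main theorem.** For every `n` and every subspace `H` of `ℝ^n`:

1. for `0 < p ≤ 2` the function `F_{p,H}` is log-concave;
2. log-concavity for an exponent `q` implies log-concavity for all exponents `0 < p ≤ q`;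
3. log-concavity for all `p > 1` is equivalent to log-concavity for the cube;
4. all the volumes are positive (so that log-concavity has its usual meaning). -/
theorem result (n : ℕ) (H : Submodule ℝ (EuclideanSpace ℝ (Fin n))) :
    (∀ p : ℝ, 0 < p → p ≤ 2 → Ball H p) ∧
    (∀ p q : ℝ, 0 < p → p ≤ q → Ball H q → Ball H p) ∧
    ((∀ p : ℝ, 1 < p → Ball H p) ↔ Cube H) ∧
    (∀ p : ℝ, 0 < p → ∀ t, 0 < F (B p n) H t ∧ 0 < F (cube n) H t) := by
  refine ⟨fun p hp hp2 => (logC_p p H).mpr (LC.logC_two H hp hp2),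
    fun p q hp hpq h => (logC_p p H).mpr (LC.logC_mono H hp hpq ((logC_p q H).mp h)),
    ⟨fun h => (logC_c H).mpr (LC.cube_of_all H fun p hp => (logC_p p H).mp (h p hp)),
      fun h p hp => (logC_p p H).mpr (LC.all_of_cube H ((logC_c H).mp h) (by linarith))⟩,
    fun p hp t => ?_⟩
  · have h1 : 0 < F (B p n) H t := by
      rw [F, set_p, vol_eq]
      exact LC.vr_pos H hp t
    refine ⟨h1, ?_⟩
    rw [F, set_c, vol_eq]
    rw [F, set_p, vol_eq] at h1
    exact lt_of_lt_of_le h1 (ENNReal.toReal_mono (LC.cub_lt_top H t).ne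
      (measure_mono (LC.sec_sub_cub H hp t)))

end Pool.Agent.Results.MP_fa837f_gt.AtMostTwoAndCube
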